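import Pool.Agent.Lib.MP_37c7bf_BJ.Final

/-!
Generic rigidity in three-space of all claw-free graphs.
-/

set_option autoImplicit false

namespace Pool.Agent.Results.MP_37c7bf_co.ClawFree

open MeasureTheory Pool.Agent.BJ
open Pool.Agent.H26R (E3 GenericallyRigid)

/-- Let `Γ` be a finite claw-free graph: among three neighbours of a vertex two are adjacent.
At almost all realizations the dimension of the space of infinitesimal motions is the largest
freedom of a cover of the vertex set, and `Γ` (with at least four vertices) is generically rigid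
if and only if no cover has freedom more than six. -/
theorem result :
    ∀ (V : Type) [Fintype V] (Γ : SimpleGraph V),
      (∀ v x y z, Γ.Adj v x → Γ.Adj v y → Γ.Adj v z → x ≠ y → x ≠ z → y ≠ z →
        Γ.Adj x y ∨ Γ.Adj x z ∨ Γ.Adj y z) →
      (∀ᵐ p : V → E3 ∂volume, IsGreatest
        {x : ℤ | ∃ (m : ℕ) (X : Fin m → Finset V), IsCover Γ X ∧ x = freedom Γ X}
        (dof Γ p : ℤ)) ∧
      (4 ≤ Fintype.card V → (GenericallyRigid Γ ↔
        ∀ (m : ℕ) (X : Fin m → Finset V), IsCover Γ X → freedom Γ X ≤ 6)) :=
  fun _ _ Γ h => claw_main Γ h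

end Pool.Agent.Results.MP_37c7bf_co.ClawFree
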