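import Pool.Agent.Lib.GAF.Machine
import Pool.Agent.Lib.GA.RigRank

/-!
# Generic rigidity in three-space: characterization and polynomial-time algorithm
-/

set_option autoImplicit false

namespace Pool.Agent.Results.MP_37c7bf_co.GenericRigidityInP

open MeasureTheory Turing Pool.Agent.K5 Pool.Agent.Lib.GAF
open Pool.Agent.H26R (E3 GenericallyRigid)

open Classical in
/-- **Characterization.** A proper `K₅`-sequence is a list of sets of five vertices each of which
spans a pair of vertices that is spanned by none of the earlier ones. For every finite simple graph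
`G` with vertex set `V` and edge set `E` and for almost all realizations `p` in three-space the rank
of the rigidity matrix of `(G, p)` is the least value of `|E ∪ E(C₁) ∪ ⋯ ∪ E(Cₜ)| - t` over all
proper `K₅`-sequences `C₁, …, Cₜ`; if `|V| ≥ 3`, then `G` is generically rigid in three-space if and
only if `|E ∪ E(C₁) ∪ ⋯ ∪ E(Cₜ)| - t ≥ 3 |V| - 6` for all of them; if `|V| ≤ 3`, then `G` is
generically rigid if and only if it is complete.

**Algorithm.** There is a deterministic Turing machine which, given a finite simple graph as its
vertex and edge lists, decides in polynomial time whether it is generically rigid in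
three-space. -/
theorem result :
    (∀ (V : Type) [Fintype V] (G : SimpleGraph V),
      (∀ᵐ p : V → E3 ∂volume,
        IsLeast {r : ℕ | ∃ L : List (Finset V), ProperK5Sequence L ∧
          r + L.length = (G.edgeFinset ∪ edgesOf L).card} (rigidityRank G p)) ∧
      (3 ≤ Fintype.card V → (GenericallyRigid G ↔
        ∀ L : List (Finset V), ProperK5Sequence L →
          3 * Fintype.card V + L.length ≤ (G.edgeFinset ∪ edgesOf L).card + 6)) ∧
      (Fintype.card V ≤ 3 → (GenericallyRigid G ↔ G = ⊤))) ∧
    ∃ M : TM2ComputableInPolyTime GraphInput.encode id
        (fun I : GraphInput => [decide (GenericallyRigid I.graph)]),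
      ∀ k, Finite (M.tm.Γ k) :=
  ⟨fun _ _ G => ⟨GR.ae_rank_of_allGood G ℚ (GR.allGood ℚ _ two_ne_zero),
    fun h => rigid_iff_sequences h G, fun h => genericallyRigid_iff_eq_top h G⟩,
    machine Pool.GA.PF_rigRank fun n es h _ => Pool.GA.rigRank_eq n es h⟩

end Pool.Agent.Results.MP_37c7bf_co.GenericRigidityInP
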